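import Mathlib

/-!
Double descent sets of permutations: the conjectured alternation of the ratios
`dd({i};n)/dd({i+1};n)` and `dd({i+2};n)/dd({i+3};n)` fails at `n = 7`, `i = 2`.
-/

namespace Pool.Agent.Results.MP_f8a98e_co.RatioFailsAtSeven

/-- The permutation `w` of `Fin n`, in one-line notation `w_1, …, w_n` with `w_i = w (i-1)`, has a
double descent at position `i`: `2 ≤ i ≤ n - 1` and `w_{i-1} > w_i > w_{i+1}`. -/
def IsDoubleDescent {n : ℕ} (w : Equiv.Perm (Fin n)) (i : ℕ) : Prop :=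
  2 ≤ i ∧ ∃ h : i < n,
    w ⟨i - 2, by omega⟩ > w ⟨i - 1, by omega⟩ ∧ w ⟨i - 1, by omega⟩ > w ⟨i, h⟩

instance {n : ℕ} (w : Equiv.Perm (Fin n)) (i : ℕ) : Decidable (IsDoubleDescent w i) := by
  unfold IsDoubleDescent
  infer_instance

/-- The double descent set of `w`. -/
def DDes {n : ℕ} (w : Equiv.Perm (Fin n)) : Finset ℕ :=
  (Finset.range n).filter (fun i => IsDoubleDescent w i)

/-- `dd I n` is the number of permutations of `n` letters whose double descent set is `I`. -/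
def dd (I : Finset ℕ) (n : ℕ) : ℕ :=
  (Finset.univ.filter (fun w : Equiv.Perm (Fin n) => DDes w = I)).card

/-- The set `DDes w` is exactly the set of double descents. -/
theorem mem_DDes {n : ℕ} (w : Equiv.Perm (Fin n)) (i : ℕ) :
    i ∈ DDes w ↔ IsDoubleDescent w i := by
  unfold DDes
  rw [Finset.mem_filter, Finset.mem_range]
  constructor
  · exact fun h => h.2
  · intro h
    exact ⟨h.2.1, h⟩

/-- Boolean test for the seven values of a permutation of `Fin 7`: the only double descent is at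
position `k`. -/
def scan (k : ℕ) : ℕ → Fin 7 → Bool → List (Fin 7) → Bool
  | _, _, _, [] => true
  | i, x, false, y :: l =>
    if i = k then false else scan k (i + 1) y (decide (y < x)) l
  | i, x, true, y :: l =>
    match decide (y < x) with
    | true => if i = k then scan k (i + 1) y true l else false
    | false => if i = k then false else scan k (i + 1) y false l

def test (k : ℕ) (w : Equiv.Perm (Fin 7)) : Bool :=
  scan k 2 (w 1) (decide (w 1 < w 0)) [w 2, w 3, w 4, w 5, w 6]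

theorem key_iff (w : Equiv.Perm (Fin 7)) (i : ℕ) : i ∈ DDes w ↔
      ((i = 2 ∧ w 1 < w 0 ∧ w 2 < w 1) ∨ (i = 3 ∧ w 2 < w 1 ∧ w 3 < w 2) ∨
       (i = 4 ∧ w 3 < w 2 ∧ w 4 < w 3) ∨ (i = 5 ∧ w 4 < w 3 ∧ w 5 < w 4) ∨
       (i = 6 ∧ w 5 < w 4 ∧ w 6 < w 5)) := by
    rw [mem_DDes]
    unfold IsDoubleDescent
    constructor
    · rintro ⟨h2, h7, ha, hb⟩
      have : i = 2 ∨ i = 3 ∨ i = 4 ∨ i = 5 ∨ i = 6 := by omega
      rcases this with rfl | rfl | rfl | rfl | rfl
      · exact Or.inl ⟨rfl, ha, hb⟩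
      · exact Or.inr (Or.inl ⟨rfl, ha, hb⟩)
      · exact Or.inr (Or.inr (Or.inl ⟨rfl, ha, hb⟩))
      · exact Or.inr (Or.inr (Or.inr (Or.inl ⟨rfl, ha, hb⟩)))
      · exact Or.inr (Or.inr (Or.inr (Or.inr ⟨rfl, ha, hb⟩)))
    · rintro (⟨rfl, ha, hb⟩ | ⟨rfl, ha, hb⟩ | ⟨rfl, ha, hb⟩ | ⟨rfl, ha, hb⟩ | ⟨rfl, ha, hb⟩)
      all_goals exact ⟨by norm_num, by norm_num, ha, hb⟩

theorem set_iff (w : Equiv.Perm (Fin 7)) (k : ℕ) (hk : k ∈ ({2, 3, 4, 5} : Finset ℕ)) :
    DDes w = {k} ↔ ((2 ∈ DDes w ↔ k = 2) ∧ (3 ∈ DDes w ↔ k = 3) ∧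
      (4 ∈ DDes w ↔ k = 4) ∧ (5 ∈ DDes w ↔ k = 5) ∧ (6 ∈ DDes w ↔ k = 6)) := by
    constructor
    · intro h
      rw [h]
      simp only [Finset.mem_singleton]
      refine ⟨?_, ?_, ?_, ?_, ?_⟩ <;> exact ⟨fun h => h.symm, fun h => h.symm⟩
    · rintro ⟨h2, h3, h4, h5, h6⟩
      ext i
      rw [Finset.mem_singleton]
      constructor
      · intro hi
        have h' := hi
        rw [key_iff] at h'
        rcases h' with ⟨rfl, _⟩ | ⟨rfl, _⟩ | ⟨rfl, _⟩ | ⟨rfl, _⟩ | ⟨rfl, _⟩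
        · exact (h2.1 hi).symm
        · exact (h3.1 hi).symm
        · exact (h4.1 hi).symm
        · exact (h5.1 hi).symm
        · exact (h6.1 hi).symm
      · rintro rfl
        simp only [Finset.mem_insert, Finset.mem_singleton] at hk
        rcases hk with rfl | rfl | rfl | rfl
        · exact h2.2 rfl
        · exact h3.2 rfl
        · exact h4.2 rfl
        · exact h5.2 rfl

theorem ddes_iff (w : Equiv.Perm (Fin 7)) (k : ℕ) (hk : k ∈ ({2, 3, 4, 5} : Finset ℕ)) :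
    DDes w = {k} ↔ test k w = true := by
  rw [set_iff w k hk]
  simp only [key_iff, test]
  simp only [Finset.mem_insert, Finset.mem_singleton] at hk
  by_cases d0 : w 1 < w 0 <;> by_cases d1 : w 2 < w 1 <;> by_cases d2 : w 3 < w 2 <;>
    by_cases d3 : w 4 < w 3 <;> by_cases d4 : w 5 < w 4 <;> by_cases d5 : w 6 < w 5 <;>
    rcases hk with rfl | rfl | rfl | rfl <;> simp [d0, d1, d2, d3, d4, d5, scan]

theorem dd_eq (k : ℕ) (hk : k ∈ ({2, 3, 4, 5} : Finset ℕ)) :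
    dd {k} 7 = (Finset.univ.filter (fun w : Equiv.Perm (Fin 7) => test k w = true)).card := by
  unfold dd
  congr 1
  apply Finset.filter_congr
  intro w _
  exact ddes_iff w k hk

set_option maxRecDepth 100000 in
theorem c2 : (Finset.univ.filter (fun w : Equiv.Perm (Fin 7) => test 2 w = true)).card = 426 := by
  decide +kernel
set_option maxRecDepth 100000 in
theorem c4 : (Finset.univ.filter (fun w : Equiv.Perm (Fin 7) => test 4 w = true)).card = 462 := by
  decide +kernel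
/-- Reversal and complementation: positions `3` and `5` are exchanged. -/
theorem dd_symm : dd {5} 7 = dd {3} 7 := by
  unfold dd
  let e : Equiv.Perm (Fin 7) ≃ Equiv.Perm (Fin 7) :=
    { toFun := fun w => Fin.revPerm * w * Fin.revPerm
      invFun := fun w => Fin.revPerm * w * Fin.revPerm
      left_inv := fun w => by ext x; simp
      right_inv := fun w => by ext x; simp }
  refine Finset.card_bij (fun w _ => e w) ?_ ?_ ?_
  · intro w hw
    rw [Finset.mem_filter] at hw ⊢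
    refine ⟨Finset.mem_univ _, ?_⟩
    have h5 := (set_iff w 5 (by decide)).1 hw.2
    rw [set_iff (e w) 3 (by decide)]
    have hd : ∀ i j i' j' : Fin 7, i.rev = i' → j.rev = j' → ((e w) i < (e w) j ↔ w j' < w i') := by
      intro i j i' j' hi hj
      subst hi hj
      show Fin.rev (w (Fin.rev i)) < Fin.rev (w (Fin.rev j)) ↔ _
      rw [Fin.rev_lt_rev]
    simp only [key_iff] at h5 ⊢
    rw [hd 1 0 5 6 rfl rfl, hd 2 1 4 5 rfl rfl, hd 3 2 3 4 rfl rfl, hd 4 3 2 3 rfl rfl,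
      hd 5 4 1 2 rfl rfl, hd 6 5 0 1 rfl rfl]
    generalize (w 1 < w 0) = p0 at h5 ⊢
    generalize (w 2 < w 1) = p1 at h5 ⊢
    generalize (w 3 < w 2) = p2 at h5 ⊢
    generalize (w 4 < w 3) = p3 at h5 ⊢
    generalize (w 5 < w 4) = p4 at h5 ⊢
    generalize (w 6 < w 5) = p5 at h5 ⊢
    by_cases p0 <;> by_cases p1 <;> by_cases p2 <;> by_cases p3 <;> by_cases p4 <;> by_cases p5 <;>
      simp_all
  · intro a _ b _ h
    exact e.injective h
  · intro b hb
    refine ⟨e b, ?_, e.left_inv b⟩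
    rw [Finset.mem_filter] at hb ⊢
    refine ⟨Finset.mem_univ _, ?_⟩
    have h5 := (set_iff b 3 (by decide)).1 hb.2
    rw [set_iff (e b) 5 (by decide)]
    have hd : ∀ i j i' j' : Fin 7, i.rev = i' → j.rev = j' → ((e b) i < (e b) j ↔ b j' < b i') := by
      intro i j i' j' hi hj
      subst hi hj
      show Fin.rev (b (Fin.rev i)) < Fin.rev (b (Fin.rev j)) ↔ _
      rw [Fin.rev_lt_rev]
    simp only [key_iff] at h5 ⊢
    rw [hd 1 0 5 6 rfl rfl, hd 2 1 4 5 rfl rfl, hd 3 2 3 4 rfl rfl, hd 4 3 2 3 rfl rfl,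
      hd 5 4 1 2 rfl rfl, hd 6 5 0 1 rfl rfl]
    generalize (b 1 < b 0) = p0 at h5 ⊢
    generalize (b 2 < b 1) = p1 at h5 ⊢
    generalize (b 3 < b 2) = p2 at h5 ⊢
    generalize (b 4 < b 3) = p3 at h5 ⊢
    generalize (b 5 < b 4) = p4 at h5 ⊢
    generalize (b 6 < b 5) = p5 at h5 ⊢
    by_cases p0 <;> by_cases p1 <;> by_cases p2 <;> by_cases p3 <;> by_cases p4 <;> by_cases p5 <;>
      simp_all

/-- The statement of Q1 is false; it fails at `n = 7`, `i = 2`. -/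
theorem result :
    ¬ (∀ n i : ℕ, 1 ≤ n → 1 ≤ i → (i : ℤ) < ⌈(n : ℚ) / 2⌉ - 1 →
        (Even i → (dd {i} n : ℚ) / dd {i + 1} n > (dd {i + 2} n : ℚ) / dd {i + 3} n) ∧
        (Odd i → (dd {i} n : ℚ) / dd {i + 1} n < (dd {i + 2} n : ℚ) / dd {i + 3} n)) := by
  intro h
  have h1 : ((2 : ℕ) : ℤ) < ⌈((7 : ℕ) : ℚ) / 2⌉ - 1 := by
    have : ⌈((7 : ℕ) : ℚ) / 2⌉ = 4 := by
      rw [Int.ceil_eq_iff]
      norm_num
    rw [this]
    norm_num
  have h2 := (h 7 2 (by norm_num) (by norm_num) h1).1 (by decide)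
  have e2 : dd {2} 7 = 426 := (dd_eq 2 (by decide)).trans c2
  have e4 : dd {2 + 2} 7 = 462 := (dd_eq 4 (by decide)).trans c4
  have e5 : dd {2 + 3} 7 = dd {2 + 1} 7 := dd_symm
  rw [e4, e5, e2] at h2
  have h0 : (0 : ℚ) ≤ (dd {2 + 1} 7 : ℚ) := Nat.cast_nonneg _
  have h3 : ((426 : ℕ) : ℚ) / (dd {2 + 1} 7 : ℚ) ≤ ((462 : ℕ) : ℚ) / (dd {2 + 1} 7 : ℚ) :=
    div_le_div_of_nonneg_right (by norm_num) h0
  exact absurd h2 (not_lt.2 h3)

end Pool.Agent.Results.MP_f8a98e_co.RatioFailsAtSeven
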